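import Pool.Agent.H568R3.Large

/-!
# One placement for all exponents outside a finite set
-/

set_option autoImplicit false

namespace Pool.Agent.Y996.RK

open Filter Topology Polynomial
open scoped ENNReal
open Pool.Agent.H568R3

/-- An exponential sum with different positive bases and a nonzero coefficient has only finitely
many nonnegative zeros. -/
theorem expsum_finite {F : Type*} [Fintype F] (D A : F → ℝ) (hA : ∀ f, 0 < A f)
    (hinj : Function.Injective A) (f0 : F) (hf0 : D f0 ≠ 0) :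
    {s : ℝ | 0 ≤ s ∧ ∑ f, D f * A f ^ s = 0}.Finite := by
  obtain ⟨N, hN⟩ := Filter.eventually_atTop.1 (expsum_ne D A hA hinj f0 hf0)
  by_contra hinf
  have hsub : {s : ℝ | 0 ≤ s ∧ ∑ f, D f * A f ^ s = 0} ⊆ Set.Icc 0 N := by
    rintro s ⟨h0, hs⟩
    refine ⟨h0, ?_⟩
    by_contra h
    exact hN s (not_le.1 h).le hs
  obtain ⟨z, -, hacc⟩ := Set.Infinite.exists_accPt_of_subset_isCompact hinf isCompact_Icc hsub
  have han : AnalyticOnNhd ℝ (fun s : ℝ => ∑ f, D f * A f ^ s) Set.univ := by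
    intro s _
    have h1 : (fun s : ℝ => ∑ f, D f * A f ^ s) =
        fun s : ℝ => ∑ f, D f * Real.exp (Real.log (A f) * s) := by
      funext s
      exact Finset.sum_congr rfl fun f _ => by rw [Real.rpow_def_of_pos (hA f)]
    rw [h1]
    fun_prop
  have hfreq : ∃ᶠ s in 𝓝[≠] z, (fun s : ℝ => ∑ f, D f * A f ^ s) s = 0 := by
    rw [accPt_iff_frequently] at hacc
    rw [frequently_nhdsWithin_iff]
    exact hacc.mono fun s hs => ⟨hs.2.2, hs.1⟩
  have h2 := han.eqOn_zero_of_preconnected_of_frequently_eq_zero isPreconnected_univ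
    (Set.mem_univ z) hfreq
  exact hN N le_rfl (h2 (Set.mem_univ N))

variable {V : Type*} [Fintype V] [DecidableEq V] {v0 : V} {d : ℕ}

theorem exists_cofinite_det {J : Type*} [Finite J] {par : J → Fin d → V → V}
    {rk : J → Fin d → V → ℕ} (hT : ∀ i, Trees v0 (par i) (rk i))
    (x1 : ℝ) (hx1 : ∀ i, ∀ h : (Fin d × {v : V // v ≠ v0}) × Fin d, zet (par i) h < x1) :
    ∃ x : ℝ, x1 < x ∧ ∀ i, {s : ℝ | 0 ≤ s ∧
      (MM s (par i) x : Matrix (Fin d × {v : V // v ≠ v0}) _ ℝ).det = 0}.Finite := by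
  classical
  -- the polynomials
  let κ : J → (Fin d × {v : V // v ≠ v0}) → Fin d → ℝ := fun i r j =>
    tt (j, r.2.1) - tt (j, par i r.1 r.2.1)
  have hκ : ∀ i r j, κ i r j ≠ 0 := by
    intro i r j h
    have h2 : r.2.1 = par i r.1 r.2.1 := (Prod.ext_iff.1 (tt_inj (sub_eq_zero.1 h))).2
    have h3 := (hT i).lt r.1 r.2.1 r.2.2
    rw [← h2] at h3
    exact lt_irrefl _ h3
  let P : J → (Fin d × {v : V // v ≠ v0} → Fin d) → ℝ[X] := fun i f =>
    ∏ r, (C |κ i r (f r)| * (X - C (zet (par i) (r, f r))))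
  have hPinj : ∀ i f g, f ≠ g → P i f - P i g ≠ 0 := by
    intro i f g hfg h
    obtain ⟨r, hr⟩ := Function.ne_iff.1 hfg
    have h1 : (P i f).eval (zet (par i) (r, f r)) = 0 := by
      rw [eval_prod]
      apply Finset.prod_eq_zero (Finset.mem_univ r)
      simp
    have h2 : (P i g).eval (zet (par i) (r, f r)) ≠ 0 := by
      rw [eval_prod, Finset.prod_ne_zero_iff]
      intro r' _
      simp only [eval_mul, eval_C, eval_sub, eval_X]
      apply mul_ne_zero (abs_ne_zero.2 (hκ _ _ _))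
      rw [sub_ne_zero]
      intro h3
      have h4 := zet_inj (hT i) h3
      rw [Prod.ext_iff] at h4
      obtain ⟨h5, h6⟩ := h4
      simp only at h5 h6
      rw [← h5] at h6
      exact hr h6
    rw [sub_eq_zero] at h
    rw [h] at h1
    exact h2 h1
  let bad : Set ℝ := ⋃ ifg : J × (Fin d × {v : V // v ≠ v0} → Fin d) ×
    (Fin d × {v : V // v ≠ v0} → Fin d), {x | ifg.2.1 ≠ ifg.2.2 ∧
      (P ifg.1 ifg.2.1 - P ifg.1 ifg.2.2).IsRoot x}
  have hbad : bad.Finite := by
    apply Set.finite_iUnion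
    rintro ⟨i, f, g⟩
    by_cases hfg : f = g
    · apply Set.Finite.subset Set.finite_empty
      rintro x ⟨h, -⟩
      exact absurd hfg h
    · exact (Polynomial.finite_setOfPred_isRoot (hPinj i f g hfg)).subset fun x hx => hx.2
  obtain ⟨x, hx, hxb⟩ : ∃ x, x ∈ Set.Ioi x1 ∧ x ∉ bad := by
    by_contra hc
    push Not at hc
    exact (Set.Ioi_infinite x1) (hbad.subset hc)
  refine ⟨x, hx, fun i => ?_⟩
  have hxz : ∀ h : (Fin d × {v : V // v ≠ v0}) × Fin d, zet (par i) h < x :=
    fun h => (hx1 i h).trans hx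
  let A : (Fin d × {v : V // v ≠ v0} → Fin d) → ℝ := fun f => (P i f).eval x
  have hAval : ∀ f, A f = ∏ r, |κ i r (f r) * (x - zet (par i) (r, f r))| := by
    intro f
    show (P i f).eval x = _
    rw [eval_prod]
    apply Finset.prod_congr rfl
    intro r _
    simp only [eval_mul, eval_C, eval_sub, eval_X]
    rw [abs_mul, abs_of_pos (sub_pos.2 (hxz (r, f r)))]
  have hApos : ∀ f, 0 < A f := by
    intro f
    rw [hAval]
    apply Finset.prod_pos
    intro r _
    exact abs_pos.2 (mul_ne_zero (hκ _ _ _) (sub_pos.2 (hxz (r, f r))).ne')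
  have hAinj : Function.Injective A := by
    intro f g h
    by_contra hfg
    apply hxb
    apply Set.mem_iUnion.2
    refine ⟨(i, f, g), hfg, ?_⟩
    show (P i f - P i g).eval x = 0
    rw [eval_sub, sub_eq_zero]
    exact h
  let D : (Fin d × {v : V // v ≠ v0} → Fin d) → ℝ := fun f =>
    (∏ r, (SignType.sign (κ i r (f r) * (x - zet (par i) (r, f r))) : ℝ)) *
      Matrix.det (Matrix.of fun (r c : Fin d × {v : V // v ≠ v0}) => NN (par i) r (f r) c)
  have hD : D (fun r => r.1) ≠ 0 := by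
    apply mul_ne_zero _ (det_trees_ne_zero (hT i))
    rw [Finset.prod_ne_zero_iff]
    intro r _ h
    have h1 : (SignType.sign (κ i r r.1 * (x - zet (par i) (r, r.1))) : ℝ) *
        |κ i r r.1 * (x - zet (par i) (r, r.1))| = κ i r r.1 * (x - zet (par i) (r, r.1)) :=
      sign_mul_abs _
    rw [h, zero_mul] at h1
    exact mul_ne_zero (hκ _ _ _) (sub_pos.2 (hxz (r, r.1))).ne' h1.symm
  have hdet : ∀ s : ℝ, (MM s (par i) x : Matrix (Fin d × {v : V // v ≠ v0}) _ ℝ).det =
      ∑ f, D f * A f ^ s := by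
    intro s
    unfold MM
    rw [det_expand]
    apply Finset.sum_congr rfl
    intro f _
    rw [hAval f, ← Real.finsetProd_rpow _ _ (fun r _ => abs_nonneg _)]
    show _ = ((∏ r, (SignType.sign (κ i r (f r) * (x - zet (par i) (r, f r))) : ℝ)) *
      Matrix.det (Matrix.of fun (r c : Fin d × {v : V // v ≠ v0}) => NN (par i) r (f r) c)) * _
    rw [mul_right_comm, ← Finset.prod_mul_distrib]
    congr 1
    apply Finset.prod_congr rfl
    intro r _
    rw [place_sub]
    exact ph_eq s _ (mul_ne_zero (hκ _ _ _) (sub_pos.2 (hxz (r, f r))).ne')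
  simp_rw [hdet]
  exact expsum_finite D A hApos hAinj _ hD

/-- One placement which is infinitesimally rigid in `ℓ_q^d` for all members of a finite family of
graphs and for all real `q > 1` outside a finite set. -/
theorem exists_rigid_cofinite {V : Type*} [Finite V] [Nonempty V] {d : ℕ} (hd : 1 ≤ d)
    {J : Type*} [Finite J] (G : J → SimpleGraph V) (K : J → Fin d → SimpleGraph V)
    (hKG : ∀ j i, K j i ≤ G j)
    (hconn : ∀ j i, (K j i).Connected) (hdisj : ∀ j i i', i ≠ i' → Disjoint (K j i) (K j i')) :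
    ∃ (p : V → Fin d → ℝ) (B : Finset ℝ), ∀ q : ℝ, 1 < q → q ∉ B →
      ∀ j, Rigid (ENNReal.ofReal q) (G j) p := by
  classical
  have := Fintype.ofFinite V
  obtain ⟨v0⟩ := ‹Nonempty V›
  choose par rk hpar using fun j i => exists_parent (hconn j i) v0
  have hT : ∀ j, Trees v0 (par j) (rk j) := by
    intro j
    refine ⟨fun i v hv => (hpar j i v hv).2, ?_⟩
    intro i v i' w hv hw h
    have h1 := (hpar j i v hv).1
    have h2 := (hpar j i' w hw).1
    by_cases hi : i = i'
    · subst hi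
      refine ⟨rfl, ?_⟩
      rcases Sym2.eq_iff.1 h with ⟨h3, -⟩ | ⟨h3, h4⟩
      · exact h3
      · have h5 := (hpar j i v hv).2
        have h6 := (hpar j i w hw).2
        rw [← h3] at h6
        rw [h4] at h5
        exact absurd h5 (not_lt.2 h6.le)
    · exfalso
      have h3 := hdisj j i i' hi
      rw [SimpleGraph.disjoint_left] at h3
      apply h3 _ _ h1
      have h4 : s(v, par j i v) ∈ (K j i').edgeSet := by
        rw [h]
        exact h2
      exact h4
  obtain ⟨x1, hx1⟩ : ∃ x1 : ℝ, ∀ ab : (Fin d × V) × (Fin d × V), tt ab.1 + tt ab.2 < x1 := by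
    obtain ⟨M, hM⟩ := (Set.finite_range
      (fun ab : (Fin d × V) × (Fin d × V) => (tt ab.1 + tt ab.2 : ℝ))).bddAbove
    exact ⟨M + 1, fun ab => lt_of_le_of_lt (hM ⟨ab, rfl⟩) (by linarith)⟩
  obtain ⟨x, hx, hfin⟩ := exists_cofinite_det hT x1
    (fun j h => hx1 ((h.2, h.1.2.1), (h.2, par j h.1.1 h.1.2.1)))
  have hfin2 : (⋃ j, (fun s : ℝ => s + 1) '' {s : ℝ | 0 ≤ s ∧
      (MM s (par j) x : Matrix (Fin d × {v : V // v ≠ v0}) _ ℝ).det = 0}).Finite :=
    Set.finite_iUnion fun j => (hfin j).image _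
  refine ⟨place x, hfin2.toFinset, fun q hq hqB j => ?_⟩
  have hdet : (MM (q - 1) (par j) x : Matrix (Fin d × {v : V // v ≠ v0}) _ ℝ).det ≠ 0 := by
    intro h0
    apply hqB
    rw [Set.Finite.mem_toFinset]
    exact Set.mem_iUnion.2 ⟨j, q - 1, ⟨by linarith, h0⟩, by simp⟩
  have hne : ∀ v w : V, v ≠ w → (place x v - place x w : Fin d → ℝ) ≠ 0 := by
    intro v w hvw h
    have h1 := congrFun h ⟨0, hd⟩
    rw [Pi.sub_apply, Pi.zero_apply, place_sub] at h1
    rcases mul_eq_zero.1 h1 with h2 | h2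
    · exact hvw (Prod.ext_iff.1 (tt_inj (sub_eq_zero.1 h2))).2
    · have h3 := hx1 ((⟨0, hd⟩, v), (⟨0, hd⟩, w))
      simp only at h3
      linarith
  refine ⟨fun u v huv => differentiableAt_lqNorm hq (hne u v huv.ne), ?_⟩
  intro m hm
  apply const_of_det hdet m
  intro i v hv
  have h1 := (hpar j i v hv).1
  have h2 := hm v (par j i v) (hKG j i h1)
  rw [fderiv_lqNorm_eq_zero hq (hne _ _ h1.ne)] at h2
  exact h2

end Pool.Agent.Y996.RK
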