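import Pool.Agent.H568R3.Lq

/-!
# A rigid framework in `ℓ_q^d` contains `d` edge-disjoint connected spanning subgraphs
-/

set_option autoImplicit false

namespace Pool.Agent.Y996.RK

open scoped ENNReal
open Pool.Agent.H568R3

/-- The graph has `d` pairwise edge-disjoint connected spanning subgraphs. -/
def Packs {V : Type*} (d : ℕ) (G : SimpleGraph V) : Prop :=
  ∃ K : Fin d → SimpleGraph V, (∀ i, K i ≤ G) ∧ (∀ i, (K i).Connected) ∧
    ∀ i i', i ≠ i' → Disjoint (K i) (K i')

section

variable {V : Type*} [Fintype V] [DecidableEq V] {v0 : V} {d : ℕ}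

/-- The row of an ordered pair of vertices in one coordinate. -/
def nr (v0 : V) (a : V × V) (j : Fin d) (c : Fin d × {v : V // v ≠ v0}) : ℝ :=
  if c.1 = j then bet a.1 a.2 c.2.1 else 0

theorem sum_nr (a : V × V) (j : Fin d) (u : Fin d × {v : V // v ≠ v0} → ℝ) :
    ∑ c, nr v0 a j c * u c = ext0 u j a.1 - ext0 u j a.2 := by
  rw [Fintype.sum_prod_type, Finset.sum_eq_single j]
  · have h1 : ∀ w : V, ∑ x : {v : V // v ≠ v0}, (if x.1 = w then (1 : ℝ) else 0) * u (j, x) =
        ext0 u j w := by
      intro w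
      unfold ext0
      split_ifs with hw
      · rw [Finset.sum_eq_single (⟨w, hw⟩ : {v : V // v ≠ v0})]
        · simp
        · intro b _ hb
          rw [if_neg (fun h => hb (Subtype.ext h)), zero_mul]
        · intro h
          exact absurd (Finset.mem_univ _) h
      · apply Finset.sum_eq_zero
        intro b _
        have hbw : b.1 ≠ w := by
          intro h
          apply hw
          rw [← h]
          exact b.2
        rw [if_neg hbw, zero_mul]
    have h2 : ∀ x : {v : V // v ≠ v0}, nr v0 a j (j, x) * u (j, x) =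
        (if x.1 = a.1 then (1 : ℝ) else 0) * u (j, x) -
          (if x.1 = a.2 then (1 : ℝ) else 0) * u (j, x) := by
      intro x
      unfold nr bet
      rw [if_pos rfl]
      ring
    rw [Finset.sum_congr rfl fun x _ => h2 x, Finset.sum_sub_distrib, h1, h1]
  · intro k _ hk
    apply Finset.sum_eq_zero
    intro x _
    unfold nr
    rw [if_neg hk, zero_mul]
  · intro h
    exact absurd (Finset.mem_univ _) h

/-- The row of an ordered pair of vertices. -/
noncomputable def rw' (v0 : V) (s : ℝ) (p : V → Fin d → ℝ) (a : V × V)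
    (c : Fin d × {v : V // v ≠ v0}) : ℝ :=
  ∑ j, ph s (p a.1 j - p a.2 j) * nr v0 a j c

theorem sum_rw' (s : ℝ) (p : V → Fin d → ℝ) (a : V × V) (u : Fin d × {v : V // v ≠ v0} → ℝ) :
    ∑ c, rw' v0 s p a c * u c =
      ∑ j, ph s (p a.1 j - p a.2 j) * (ext0 u j a.1 - ext0 u j a.2) := by
  unfold rw'
  simp_rw [Finset.sum_mul]
  rw [Finset.sum_comm]
  apply Finset.sum_congr rfl
  intro j _
  rw [← sum_nr a j u, Finset.mul_sum]
  exact Finset.sum_congr rfl fun c _ => by ring

theorem ph_neg (s y : ℝ) : ph s (-y) = -ph s y := by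
  unfold ph
  rw [abs_neg]
  ring

theorem rw'_swap (s : ℝ) (p : V → Fin d → ℝ) (a b : V) :
    rw' v0 s p (a, b) = rw' v0 s p (b, a) := by
  funext c
  unfold rw'
  apply Finset.sum_congr rfl
  intro j _
  simp only
  rw [← neg_sub (p b j), ph_neg]
  unfold nr bet
  simp only
  split_ifs <;> ring

/-- Linear algebra: if only the constant motions satisfy the equations of the edges, then some
square system of rows is nonsingular. -/
theorem exists_rows {s : ℝ} {p : V → Fin d → ℝ} {G : SimpleGraph V}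
    (hr : ∀ m : V → Fin d → ℝ, (∀ u v, G.Adj u v →
      ∑ k, ph s (p u k - p v k) * (m u k - m v k) = 0) → ∀ u v, m u = m v) :
    ∃ a : (Fin d × {v : V // v ≠ v0}) → V × V, (∀ r, G.Adj (a r).1 (a r).2) ∧
      (Matrix.of fun r c => rw' v0 s p (a r) c : Matrix (Fin d × {v : V // v ≠ v0})
        (Fin d × {v : V // v ≠ v0}) ℝ).det ≠ 0 := by
  classical
  set S : Set ((Fin d × {v : V // v ≠ v0}) → ℝ) := {w | ∃ a : V × V, G.Adj a.1 a.2 ∧
    rw' v0 s p a = w} with hS
  have hspan : Submodule.span ℝ S = ⊤ := by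
    by_contra hne
    obtain ⟨φ, hφ, hφ0⟩ := Submodule.exists_le_ker_of_lt_top _ (lt_top_iff_ne_top.2 hne)
    apply hφ
    -- the functional is given by a vector
    set u : Fin d × {v : V // v ≠ v0} → ℝ := fun c => φ (Pi.single c 1) with hu
    have hφu : ∀ w, φ w = ∑ c, w c * u c := by
      intro w
      conv_lhs => rw [← Finset.univ_sum_single w]
      rw [map_sum]
      apply Finset.sum_congr rfl
      intro c _
      have h1 : (Pi.single c (w c) : Fin d × {v : V // v ≠ v0} → ℝ) = w c • Pi.single c 1 := by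
        rw [← Pi.single_smul, smul_eq_mul, mul_one]
      rw [h1, map_smul, smul_eq_mul]
    have hm := hr (fun v k => ext0 u k v) (by
      intro x y hxy
      rw [← sum_rw' (v0 := v0) s p (x, y) u, ← hφu]
      exact hφ0 (Submodule.subset_span ⟨(x, y), hxy, rfl⟩))
    have hu0 : u = 0 := by
      funext c
      have h1 := congrFun (hm c.2.1 v0) c.1
      unfold ext0 at h1
      rw [dif_pos c.2.2, dif_neg (not_not.2 rfl)] at h1
      exact h1
    apply LinearMap.ext
    intro w
    rw [hφu, hu0]
    simp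
  obtain ⟨b, hb1, hb2, hb3⟩ := exists_linearIndependent ℝ S
  rw [hspan] at hb2
  let B := Module.Basis.mk hb3 (by
    rw [Subtype.range_coe_subtype]
    exact hb2.ge)
  have hfin : Finite b := Module.Finite.finite_basis B
  have := Fintype.ofFinite b
  have hcard : Fintype.card b = Fintype.card (Fin d × {v : V // v ≠ v0}) := by
    rw [← Module.finrank_eq_card_basis B, Module.finrank_fintype_fun_eq_card]
  obtain ⟨e⟩ : Nonempty ((Fin d × {v : V // v ≠ v0}) ≃ b) :=
    Fintype.card_eq.1 hcard.symm
  have hch : ∀ r, ∃ a : V × V, G.Adj a.1 a.2 ∧ rw' v0 s p a = (e r).1 := fun r => hb1 (e r).2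
  choose a ha1 ha2 using hch
  refine ⟨a, ha1, ?_⟩
  have hli : LinearIndependent ℝ (fun r => (Matrix.of fun r c => rw' v0 s p (a r) c :
      Matrix (Fin d × {v : V // v ≠ v0}) (Fin d × {v : V // v ≠ v0}) ℝ).row r) := by
    have h1 : (fun r => (Matrix.of fun r c => rw' v0 s p (a r) c :
      Matrix (Fin d × {v : V // v ≠ v0}) (Fin d × {v : V // v ≠ v0}) ℝ).row r) =
        (Subtype.val : b → _) ∘ e := by
      funext r
      exact ha2 r
    rw [h1]
    exact hb3.comp e e.injective
  have h2 := Matrix.linearIndependent_rows_iff_isUnit.1 hli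
  exact ((Matrix.isUnit_iff_isUnit_det _).1 h2).ne_zero

end

/-- **Necessity.** If only the constant motions satisfy the equations of the edges of `G` then `G`
contains `d` edge-disjoint connected spanning subgraphs. -/
theorem packs_of_rigid {V : Type*} [Finite V] [Nonempty V] {d : ℕ} {s : ℝ} {p : V → Fin d → ℝ}
    {G : SimpleGraph V} (hr : ∀ m : V → Fin d → ℝ, (∀ u v, G.Adj u v →
      ∑ k, ph s (p u k - p v k) * (m u k - m v k) = 0) → ∀ u v, m u = m v) : Packs d G := by
  classical
  have := Fintype.ofFinite V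
  obtain ⟨v0⟩ := ‹Nonempty V›
  obtain ⟨a, ha, hdet⟩ := exists_rows (v0 := v0) hr
  have h1 : (Matrix.of fun r c => rw' v0 s p (a r) c : Matrix (Fin d × {v : V // v ≠ v0})
        (Fin d × {v : V // v ≠ v0}) ℝ) = Matrix.of fun r c => ∑ j,
          (fun r j => ph s (p (a r).1 j - p (a r).2 j)) r j * (fun r => nr v0 (a r)) r j c := rfl
  have hdet' := hdet
  rw [h1, det_expand] at hdet
  obtain ⟨f, -, hf⟩ := Finset.exists_ne_zero_of_sum_ne_zero hdet
  have hf2 := right_ne_zero_of_mul hf
  -- different rows have different edges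
  have hinj : ∀ r r', s((a r).1, (a r).2) = s((a r').1, (a r').2) → r = r' := by
    intro r r' h
    by_contra hne
    apply hdet'
    apply Matrix.det_zero_of_row_eq hne
    have h2 : rw' v0 s p (a r) = rw' v0 s p (a r') := by
      rcases Sym2.eq_iff.1 h with ⟨h3, h4⟩ | ⟨h3, h4⟩
      · have h5 : a r = a r' := Prod.ext h3 h4
        rw [h5]
      · have h5 : a r = ((a r').2, (a r').1) := Prod.ext h3 h4
        rw [h5, rw'_swap]
    exact h2
  refine ⟨fun j => SimpleGraph.fromEdgeSet {e | ∃ r, f r = j ∧ e = s((a r).1, (a r).2)},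
    ?_, ?_, ?_⟩
  · intro j u v huv
    rw [SimpleGraph.fromEdgeSet_adj] at huv
    obtain ⟨⟨r, -, h⟩, -⟩ := huv
    rcases Sym2.eq_iff.1 h with ⟨h3, h4⟩ | ⟨h3, h4⟩
    · rw [h3, h4]
      exact ha r
    · rw [h3, h4]
      exact (ha r).symm
  · intro j
    set K : SimpleGraph V :=
      SimpleGraph.fromEdgeSet {e | ∃ r, f r = j ∧ e = s((a r).1, (a r).2)} with hK
    rw [SimpleGraph.connected_iff_exists_forall_reachable]
    refine ⟨v0, ?_⟩
    by_contra hc
    push Not at hc
    obtain ⟨w0, hw0⟩ := hc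
    apply hf2
    rw [← Matrix.exists_mulVec_eq_zero_iff]
    have hw0' : w0 ≠ v0 := by
      rintro rfl
      exact hw0 (SimpleGraph.Reachable.refl _)
    refine ⟨fun c => if c.1 = j ∧ ¬ K.Reachable v0 c.2.1 then 1 else 0, ?_, ?_⟩
    · intro h
      have h3 : (if j = j ∧ ¬ K.Reachable v0 w0 then (1 : ℝ) else 0) = 0 :=
        congrFun h (j, ⟨w0, hw0'⟩)
      rw [if_pos ⟨rfl, hw0⟩] at h3
      exact one_ne_zero h3
    · funext r
      show ∑ c, nr v0 (a r) (f r) c * _ = _
      rw [sum_nr, Pi.zero_apply]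
      have hext : ∀ x : V, ext0 (fun c : Fin d × {v : V // v ≠ v0} =>
          if c.1 = j ∧ ¬ K.Reachable v0 c.2.1 then (1 : ℝ) else 0) (f r) x =
            if f r = j ∧ ¬ K.Reachable v0 x then 1 else 0 := by
        intro x
        unfold ext0
        by_cases hx : x ≠ v0
        · rw [dif_pos hx]
        · rw [dif_neg hx]
          push Not at hx
          rw [if_neg]
          rintro ⟨-, h⟩
          exact h (hx ▸ SimpleGraph.Reachable.refl _)
      rw [hext, hext]
      by_cases hj : f r = j
      · have hadj : K.Adj (a r).1 (a r).2 := by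
          rw [hK, SimpleGraph.fromEdgeSet_adj]
          exact ⟨⟨r, hj, rfl⟩, (ha r).ne⟩
        have hiff : K.Reachable v0 (a r).1 ↔ K.Reachable v0 (a r).2 :=
          ⟨fun h => h.trans hadj.reachable, fun h => h.trans hadj.symm.reachable⟩
        simp only [hiff, sub_self]
      · rw [if_neg (fun h => hj h.1), if_neg (fun h => hj h.1), sub_self]
  · intro i i' hii
    rw [SimpleGraph.disjoint_left]
    intro u v h1 h2
    rw [SimpleGraph.fromEdgeSet_adj] at h1 h2
    obtain ⟨⟨r, hr1, h3⟩, -⟩ := h1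
    obtain ⟨⟨r', hr2, h4⟩, -⟩ := h2
    apply hii
    rw [← hr1, ← hr2, hinj r r' (h3.symm.trans h4)]

/-- The norm is not differentiable at the origin. -/
theorem not_diff_zero {d : ℕ} (hd : 1 ≤ d) {q : ℝ} (hq : 1 < q) :
    ¬ DifferentiableAt ℝ (lqNorm (ENNReal.ofReal q) : (Fin d → ℝ) → ℝ) 0 := by
  intro h
  set k : Fin d := ⟨0, hd⟩ with hk
  let e : Fin d → ℝ := Pi.single k 1
  have h1 : DifferentiableAt ℝ (fun t : ℝ => t • e) 0 := by fun_prop
  have h2 : DifferentiableAt ℝ (lqNorm (ENNReal.ofReal q) : (Fin d → ℝ) → ℝ)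
      ((fun t : ℝ => t • e) 0) := by
    simp only [zero_smul]
    exact h
  have h3 := h2.comp (0 : ℝ) h1
  apply not_differentiableAt_abs_zero
  have h4 : (abs : ℝ → ℝ) = (lqNorm (ENNReal.ofReal q) : (Fin d → ℝ) → ℝ) ∘
      fun t : ℝ => t • e := by
    funext t
    rw [Function.comp_apply, lqNorm_eq (by linarith), Finset.sum_eq_single k]
    · have h5 : (t • e) k = t := by
        show t • (Pi.single k (1 : ℝ) : Fin d → ℝ) k = t
        simp
      rw [h5, ← Real.rpow_mul (abs_nonneg t), mul_one_div_cancel (by linarith), Real.rpow_one]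
    · intro j _ hj
      have h5 : (t • e) j = 0 := by
        show t • (Pi.single k (1 : ℝ) : Fin d → ℝ) j = 0
        simp [hj]
      rw [h5, abs_zero, Real.zero_rpow (by linarith)]
    · intro h5
      exact absurd (Finset.mem_univ k) h5
  rw [h4]
  exact h3

/-- A graph with an infinitesimally rigid placement in `ℓ_q^d`, `q > 1`, contains `d` edge-disjoint
connected spanning subgraphs. -/
theorem packs_of_Rigid {V : Type*} [Finite V] [Nonempty V] {d : ℕ} (hd : 1 ≤ d) {q : ℝ}
    (hq : 1 < q) {p : V → Fin d → ℝ} {G : SimpleGraph V} (h : Rigid (ENNReal.ofReal q) G p) :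
    Packs d G := by
  obtain ⟨h1, h2⟩ := h
  apply packs_of_rigid (s := q - 1) (p := p)
  intro m hm
  apply h2
  intro u v huv
  have hne : p u - p v ≠ 0 := by
    intro h0
    have h3 := h1 u v huv
    rw [h0] at h3
    exact not_diff_zero hd hq h3
  rw [fderiv_lqNorm_eq_zero hq hne]
  exact hm u v huv

end Pool.Agent.Y996.RK
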