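import Pool.Agent.H568R3.LqDefs

/-!
# Complete graphs with `2d + 1` vertices in `ℓ_∞^d`
-/

set_option autoImplicit false

namespace Pool.Agent.Y996.RK

open scoped ENNReal
open Filter Topology
open Pool.Agent.H568R3

variable {d : ℕ}

theorem le_lqNorm_top (x : Fin d → ℝ) (i : Fin d) : |x i| ≤ lqNorm ∞ x := by
  unfold lqNorm
  rw [PiLp.norm_eq_ciSup]
  exact le_ciSup (f := fun i => ‖(WithLp.toLp ∞ x : PiLp ∞ fun _ : Fin d => ℝ) i‖)
    (Set.finite_range _).bddAbove i

theorem lqNorm_top_eq {x : Fin d → ℝ} {i : Fin d} (h : ∀ j, |x j| ≤ |x i|) :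
    lqNorm ∞ x = |x i| := by
  apply le_antisymm _ (le_lqNorm_top x i)
  unfold lqNorm
  rw [PiLp.norm_eq_ciSup]
  have : Nonempty (Fin d) := ⟨i⟩
  exact ciSup_le fun j => h j

/-- If `|x k|` is the largest coordinate then the derivative of the norm is `±` that coordinate. -/
theorem fderiv_top {x : Fin d → ℝ} {k : Fin d} (hx0 : x k ≠ 0) (hx : ∀ j, j ≠ k → |x j| < |x k|)
    (h : Fin d → ℝ) :
    fderiv ℝ (lqNorm ∞) x h = SignType.sign (x k) * h k := by
  have h1 : HasFDerivAt (fun y : Fin d → ℝ => |y k|)
      ((SignType.sign (x k) : ℝ) • (ContinuousLinearMap.proj k : (Fin d → ℝ) →L[ℝ] ℝ)) x := by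
    have h2 := hasDerivAt_abs hx0
    have h3 : HasFDerivAt (fun y : Fin d → ℝ => y k)
      (ContinuousLinearMap.proj k : (Fin d → ℝ) →L[ℝ] ℝ) x := hasFDerivAt_apply k x
    exact h2.comp_hasFDerivAt x h3
  have h2 : (lqNorm ∞ : (Fin d → ℝ) → ℝ) =ᶠ[𝓝 x] fun y : Fin d → ℝ => |y k| := by
    have h3 : ∀ᶠ y in 𝓝 x, ∀ j, j ≠ k → |y j| < |y k| := by
      rw [eventually_all]
      intro j
      by_cases hj : j = k
      · exact Eventually.of_forall fun y h => absurd hj h
      · have c1 : Continuous fun y : Fin d → ℝ => |y j| := by fun_prop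
        have c2 : Continuous fun y : Fin d → ℝ => |y k| := by fun_prop
        filter_upwards [(isOpen_lt c1 c2).mem_nhds (hx j hj)] with y hy _
        exact hy
    filter_upwards [h3] with y hy
    apply lqNorm_top_eq
    intro j
    by_cases hj : j = k
    · rw [hj]
    · exact (hy j hj).le
  rw [(h1.congr_of_eventuallyEq h2).fderiv]
  rfl

/-- The norm is not differentiable where the largest absolute value of a coordinate is attained
twice. -/
theorem not_diff_top {x : Fin d → ℝ} {k l : Fin d} (hkl : k ≠ l) (hx : ∀ j, |x j| ≤ |x k|)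
    (hl : |x l| = |x k|) : ¬ DifferentiableAt ℝ (lqNorm ∞) x := by
  intro hd
  obtain ⟨σ, hσ, hσx⟩ : ∃ σ : ℝ, |σ| = 1 ∧ σ * x k = |x k| := by
    rcases le_total 0 (x k) with h | h
    · exact ⟨1, abs_one, by rw [one_mul, abs_of_nonneg h]⟩
    · exact ⟨-1, by simp, by rw [abs_of_nonpos h]; ring⟩
  have hσ2 : σ * σ = 1 := by
    have := abs_mul_abs_self σ
    rw [hσ] at this
    linarith
  -- the line through x
  let e : Fin d → ℝ := Pi.single k σ
  let l' : ℝ → Fin d → ℝ := fun t => x + t • e
  have hlin : HasDerivAt l' e 0 := by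
    have h1 : HasDerivAt (fun t : ℝ => t • e) ((1 : ℝ) • e) 0 :=
      (hasDerivAt_id (0 : ℝ)).smul_const _
    rw [one_smul] at h1
    exact h1.const_add x
  have hl0 : l' 0 = x := by
    show x + (0 : ℝ) • e = x
    rw [zero_smul, add_zero]
  have hg : HasDerivAt (fun t => lqNorm ∞ (l' t)) (fderiv ℝ (lqNorm ∞) x e) 0 := by
    have h1 : HasFDerivAt (lqNorm ∞) (fderiv ℝ (lqNorm ∞) x) (l' 0) := by
      rw [hl0]
      exact hd.hasFDerivAt
    exact h1.comp_hasDerivAt 0 hlin
  have ek : ∀ t, l' t k = x k + t * σ := by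
    intro t
    show x k + t • (Pi.single k σ : Fin d → ℝ) k = _
    simp
  have ej : ∀ t j, j ≠ k → l' t j = x j := by
    intro t j hj
    show x j + t • (Pi.single k σ : Fin d → ℝ) j = _
    rw [Pi.single_eq_of_ne hj]
    simp
  have habs : ∀ t, |x k + t * σ| = |(|x k| + t)| := by
    intro t
    have : x k + t * σ = σ * (|x k| + t) := by
      rw [← hσx]
      linear_combination (-(x k)) * hσ2
    rw [this, abs_mul, hσ, one_mul]
  have hge : ∀ t, |x k| ≤ lqNorm ∞ (l' t) := by
    intro t
    have h1 := le_lqNorm_top (l' t) l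
    rw [ej t l hkl.symm, hl] at h1
    exact h1
  have hpos : ∀ t, 0 < t → lqNorm ∞ (l' t) = |x k| + t := by
    intro t ht
    have hnn := abs_nonneg (x k)
    rw [lqNorm_top_eq (i := k), ek, habs, abs_of_nonneg (by linarith : 0 ≤ |x k| + t)]
    intro j
    rw [ek, habs, abs_of_nonneg (by linarith : 0 ≤ |x k| + t)]
    by_cases hj : j = k
    · rw [hj, ek, habs, abs_of_nonneg (by linarith : 0 ≤ |x k| + t)]
    · rw [ej t j hj]
      linarith [hx j]
  set D := fderiv ℝ (lqNorm ∞) x e with hD
  have hslope := hg.tendsto_slope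
  have hr : Tendsto (slope (fun t => lqNorm ∞ (l' t)) 0) (𝓝[>] 0) (𝓝 D) :=
    hslope.mono_left (nhdsWithin_mono 0 fun x hx => ne_of_gt hx)
  have hl' : Tendsto (slope (fun t => lqNorm ∞ (l' t)) 0) (𝓝[<] 0) (𝓝 D) :=
    hslope.mono_left (nhdsWithin_mono 0 fun x hx => ne_of_lt hx)
  have h0 : lqNorm ∞ (l' 0) = |x k| := by
    rw [hl0]
    exact lqNorm_top_eq hx
  have hr1 : D = 1 := by
    apply tendsto_nhds_unique hr
    apply tendsto_const_nhds.congr'
    filter_upwards [self_mem_nhdsWithin] with t ht
    have ht' : 0 < t := ht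
    rw [slope_def_field, h0, hpos t ht', add_sub_cancel_left, sub_zero, div_self ht'.ne']
  have hl1 : D ≤ 0 := by
    apply le_of_tendsto hl'
    filter_upwards [self_mem_nhdsWithin] with t ht
    have ht' : t < 0 := ht
    rw [slope_def_field, h0]
    apply div_nonpos_of_nonneg_of_nonpos
    · rw [sub_nonneg]
      exact hge t
    · linarith
  linarith

/-- Where the norm is differentiable one coordinate is larger than the others. -/
theorem exists_max (hd : 2 ≤ d) {x : Fin d → ℝ} (h : DifferentiableAt ℝ (lqNorm ∞) x) :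
    ∃ k, x k ≠ 0 ∧ ∀ j, j ≠ k → |x j| < |x k| := by
  have : Nonempty (Fin d) := ⟨⟨0, by omega⟩⟩
  obtain ⟨k, hk⟩ := Finite.exists_max fun j : Fin d => |x j|
  have h1 : ∀ j, j ≠ k → |x j| < |x k| := by
    intro j hj
    rcases (hk j).lt_or_eq with h2 | h2
    · exact h2
    · exact absurd h (not_diff_top (Ne.symm hj) hk h2)
  refine ⟨k, ?_, h1⟩
  obtain ⟨j, hj⟩ : ∃ j : Fin d, j ≠ k := by
    have : Nontrivial (Fin d) := Fin.nontrivial_iff_two_le.2 hd
    exact exists_ne k
  have h2 := h1 j hj
  intro h3
  rw [h3, abs_zero] at h2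
  exact absurd h2 (not_lt.2 (abs_nonneg _))

/-- **No redundantly rigid placement of a complete graph with `2d + 1` vertices in `ℓ_∞^d`.** -/
theorem complete_top {V : Type*} [Fintype V] (hd : 2 ≤ d) (hV : Fintype.card V = 2 * d + 1)
    (p : V → Fin d → ℝ) : ¬ RedundantlyRigid ∞ (⊤ : SimpleGraph V) p := by
  classical
  rintro ⟨⟨hwp, hrig⟩, hred⟩
  -- the colours
  let c : Fin d → V → V → Prop := fun k u v =>
    (p u - p v) k ≠ 0 ∧ ∀ j, j ≠ k → |(p u - p v) j| < |(p u - p v) k|
  have cne : ∀ k u v, c k u v → u ≠ v := by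
    intro k u v h huv
    apply h.1
    rw [huv, sub_self, Pi.zero_apply]
  have csymm : ∀ k u v, c k u v → c k v u := by
    intro k u v h
    have h1 := h.1
    have h2 := h.2
    refine ⟨?_, ?_⟩
    · simp only [Pi.sub_apply] at h1 ⊢
      intro h3
      apply h1
      linarith
    · intro j hj
      have h3 := h2 j hj
      simp only [Pi.sub_apply] at h3 ⊢
      rw [abs_sub_comm, abs_sub_comm (p v k)]
      exact h3
  have hor : ∀ u v, u ≠ v → ∃ k, c k u v := fun u v huv => exists_max hd (hwp u v huv)
  have hnot : ∀ k l u v, c k u v → c l u v → k = l := by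
    intro k l u v h1 h2
    by_contra hkl
    exact absurd (h1.2 l (Ne.symm hkl)) (not_lt.2 (h2.2 k hkl).le)
  have hfd : ∀ k u v (h : Fin d → ℝ), c k u v →
      fderiv ℝ (lqNorm ∞) (p u - p v) h = SignType.sign ((p u - p v) k) * h k := by
    intro k u v h hc
    exact fderiv_top hc.1 hc.2 h
  -- at least two neighbours of each colour
  have hdeg : ∀ k v, 2 ≤ (Finset.univ.filter fun u => c k u v).card := by
    intro k v
    by_contra hlt
    push Not at hlt
    obtain ⟨u0, hu0, hN⟩ : ∃ u0, u0 ≠ v ∧ ∀ u, c k u v → u = u0 := by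
      rcases (Finset.univ.filter fun u => c k u v).eq_empty_or_nonempty with he | ⟨u1, hu1⟩
      · obtain ⟨u0, hu0⟩ : ∃ u0, u0 ≠ v := by
          have : Nontrivial V := by
            rw [← Fintype.one_lt_card_iff_nontrivial, hV]
            omega
          exact exists_ne v
        refine ⟨u0, hu0, fun u hu => ?_⟩
        have : u ∈ (Finset.univ.filter fun u => c k u v) := by simp [hu]
        rw [he] at this
        simp at this
      · have h1 : c k u1 v := by simpa using hu1
        refine ⟨u1, cne _ _ _ h1, fun u hu => ?_⟩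
        have h2 : (Finset.univ.filter fun u => c k u v).card ≤ 1 := by omega
        exact Finset.card_le_one.1 h2 u (by simp [hu]) u1 hu1
    have hr := (hred s(v, u0) (by simpa using hu0.symm)).2
    let m : V → Fin d → ℝ := fun w j => if w = v ∧ j = k then 1 else 0
    have hm : IsFlex ∞ ((⊤ : SimpleGraph V).deleteEdges {s(v, u0)}) p m := by
      intro a b hab
      rw [SimpleGraph.deleteEdges_adj] at hab
      obtain ⟨hab, hne⟩ := hab
      have hab' : a ≠ b := hab
      obtain ⟨k', hk'⟩ := hor a b hab'
      have h2 : m a k' = m b k' := by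
        by_cases hkk : k' = k
        · subst hkk
          have ha : a ≠ v := by
            rintro rfl
            have h3 := hN b (csymm _ _ _ hk')
            rw [h3] at hne
            exact hne rfl
          have hb : b ≠ v := by
            rintro rfl
            have h3 := hN a hk'
            rw [h3] at hne
            exact hne Sym2.eq_swap
          simp [m, ha, hb]
        · simp [m, hkk]
      have h3 : (m a - m b) k' = 0 := by rw [Pi.sub_apply, h2, sub_self]
      rw [hfd k' a b _ hk', h3, mul_zero]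
    have h1 := congrFun (hr m hm v u0) k
    simp [m, hu0] at h1
  -- exactly two neighbours of each colour
  have hdeg2 : ∀ k v, (Finset.univ.filter fun u => c k u v).card = 2 := by
    intro k v
    have h1 : ∑ l : Fin d, (Finset.univ.filter fun u => c l u v).card ≤ 2 * d := by
      rw [← Finset.card_biUnion]
      · have h4 : (Finset.univ.biUnion fun l : Fin d => Finset.univ.filter fun u => c l u v) ⊆
            Finset.univ.erase v := by
          intro u hu
          obtain ⟨l, -, hl⟩ := Finset.mem_biUnion.1 hu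
          exact Finset.mem_erase.2 ⟨cne _ _ _ (Finset.mem_filter.1 hl).2, Finset.mem_univ u⟩
        have h5 := Finset.card_le_card h4
        rw [Finset.card_erase_of_mem (Finset.mem_univ v), Finset.card_univ, hV] at h5
        omega
      · intro l _ l' _ hll
        rw [Function.onFun, Finset.disjoint_left]
        intro u hu hu'
        exact hll (hnot _ _ _ _ (Finset.mem_filter.1 hu).2 (Finset.mem_filter.1 hu').2)
    have h2 : ∀ l : Fin d, (2 : ℕ) ≤ (Finset.univ.filter fun u => c l u v).card :=
      fun l => hdeg l v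
    by_contra hne
    have h3 : 2 < (Finset.univ.filter fun u => c k u v).card := lt_of_le_of_ne (hdeg k v)
      (Ne.symm hne)
    have h4 : ∑ _l : Fin d, (2 : ℕ) < ∑ l : Fin d, (Finset.univ.filter fun u => c l u v).card :=
      Finset.sum_lt_sum (fun l _ => h2 l) ⟨k, Finset.mem_univ k, h3⟩
    rw [Finset.sum_const, Finset.card_univ, Fintype.card_fin, smul_eq_mul] at h4
    omega
  set k0 : Fin d := ⟨0, by omega⟩ with hk0
  -- transitivity
  have htrans : ∀ u v w, c k0 u v → c k0 v w → p u k0 < p v k0 → p v k0 < p w k0 →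
      c k0 u w := by
    intro u v w h1 h2 h3 h4
    refine ⟨?_, ?_⟩
    · simp only [Pi.sub_apply]
      intro h5
      linarith
    · intro j hj
      have h5 := h1.2 j hj
      have h6 := h2.2 j hj
      simp only [Pi.sub_apply] at h5 h6 ⊢
      rw [abs_of_neg (sub_neg.2 h3)] at h5
      rw [abs_of_neg (sub_neg.2 h4)] at h6
      rw [abs_of_neg (sub_neg.2 (h3.trans h4))]
      have h7 := abs_sub_le (p u j) (p v j) (p w j)
      linarith
  -- no triangle
  have htri : ∀ u v w, c k0 u v → c k0 v w → c k0 u w → False := by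
    intro u v w h1 h2 h3
    have hN : ∀ x y z, c k0 y x → c k0 z x → y ≠ z → ∀ a, c k0 a x → a = y ∨ a = z := by
      intro x y z hy hz hyz a ha
      by_contra hc
      push Not at hc
      have h4 : ({a, y, z} : Finset V) ⊆ Finset.univ.filter fun u => c k0 u x := by
        intro t ht
        simp only [Finset.mem_insert, Finset.mem_singleton] at ht
        simp only [Finset.mem_filter, Finset.mem_univ, true_and]
        rcases ht with rfl | rfl | rfl
        · exact ha
        · exact hy
        · exact hz
      have h5 := Finset.card_le_card h4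
      rw [hdeg2 k0 x, Finset.card_eq_three.2 ⟨a, y, z, hc.1, hc.2, hyz, rfl⟩] at h5
      omega
    have huv := cne _ _ _ h1
    have hvw := cne _ _ _ h2
    have huw := cne _ _ _ h3
    obtain ⟨a, ha⟩ : ∃ a, a ∉ ({u, v, w} : Finset V) := by
      by_contra hc
      push Not at hc
      have h4 : (Finset.univ : Finset V) ⊆ {u, v, w} := fun t _ => hc t
      have h5 := Finset.card_le_card h4
      have h6 : ({u, v, w} : Finset V).card ≤ 3 := Finset.card_le_three
      rw [Finset.card_univ, hV] at h5
      omega
    let m : V → Fin d → ℝ := fun t j => if t ∈ ({u, v, w} : Finset V) ∧ j = k0 then 1 else 0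
    have hclosed : ∀ x ∈ ({u, v, w} : Finset V), ∀ y, c k0 y x → y ∈ ({u, v, w} : Finset V) := by
      intro x hx y hy
      simp only [Finset.mem_insert, Finset.mem_singleton] at hx ⊢
      rcases hx with rfl | rfl | rfl
      · rcases hN x v w (csymm _ _ _ h1) (csymm _ _ _ h3) hvw y hy with h | h
        · exact Or.inr (Or.inl h)
        · exact Or.inr (Or.inr h)
      · rcases hN x u w h1 (csymm _ _ _ h2) huw y hy with h | h
        · exact Or.inl h
        · exact Or.inr (Or.inr h)
      · rcases hN x u v h3 h2 huv y hy with h | h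
        · exact Or.inl h
        · exact Or.inr (Or.inl h)
    have hm : IsFlex ∞ (⊤ : SimpleGraph V) p m := by
      intro x y hxy
      obtain ⟨k', hk'⟩ := hor x y hxy
      have h4 : m x k' = m y k' := by
        by_cases hkk : k' = k0
        · subst hkk
          have h5 : x ∈ ({u, v, w} : Finset V) ↔ y ∈ ({u, v, w} : Finset V) :=
            ⟨fun h => hclosed x h y (csymm _ _ _ hk'), fun h => hclosed y h x hk'⟩
          simp only [m, h5]
        · simp [m, hkk]
      have h5 : (m x - m y) k' = 0 := by rw [Pi.sub_apply, h4, sub_self]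
      rw [hfd k' x y _ hk', h5, mul_zero]
    have h4 := congrFun (hrig m hm u a) k0
    simp only [m, and_true, if_neg ha] at h4
    rw [if_pos (by simp)] at h4
    exact one_ne_zero h4
  -- sources and sinks
  let up : V → Prop := fun v => ∀ u, c k0 u v → p u k0 < p v k0
  have hne : ∀ u v, c k0 u v → p u k0 ≠ p v k0 := by
    intro u v h h'
    apply h.1
    simp only [Pi.sub_apply, h', sub_self]
  have hdown : ∀ v, ¬ up v → ∀ u, c k0 u v → p v k0 < p u k0 := by
    intro v hv u hu
    by_contra hlt
    have h1 : p u k0 < p v k0 := lt_of_le_of_ne (not_lt.1 hlt) (hne u v hu)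
    apply hv
    intro w hw
    by_contra hlt2
    have h2 : p v k0 < p w k0 := lt_of_le_of_ne (not_lt.1 hlt2) (hne w v hw).symm
    exact htri u v w hu (csymm _ _ _ hw) (htrans u v w hu (csymm _ _ _ hw) h1 h2)
  have hupdown : ∀ u v, c k0 u v → (up u ↔ ¬ up v) := by
    intro u v h
    constructor
    · intro h1 h2
      exact lt_asymm (h1 v (csymm _ _ _ h)) (h2 u h)
    · intro h1
      by_contra h2
      exact lt_asymm (hdown v h1 u h) (hdown u h2 v (csymm _ _ _ h))
  have hcount : ∑ v ∈ Finset.univ.filter (fun v => up v), 2 =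
      ∑ v ∈ Finset.univ.filter (fun v => ¬ up v), 2 := by
    have h1 : ∀ v, up v → (2 : ℕ) = ∑ u ∈ Finset.univ.filter (fun u => ¬ up u),
        if c k0 u v then 1 else 0 := by
      intro v hv
      have e : (Finset.univ.filter (fun u => ¬ up u)).filter (fun u => c k0 u v) =
          Finset.univ.filter fun u => c k0 u v := by
        ext u
        simp only [Finset.mem_filter, Finset.mem_univ, true_and]
        exact ⟨fun h => h.2, fun h => ⟨fun h' => (hupdown u v h).1 h' hv, h⟩⟩
      rw [← Finset.card_filter, e, hdeg2 k0 v]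
    have h2 : ∀ u, ¬ up u → (2 : ℕ) = ∑ v ∈ Finset.univ.filter (fun v => up v),
        if c k0 u v then 1 else 0 := by
      intro u hu
      have e : (Finset.univ.filter (fun v => up v)).filter (fun v => c k0 u v) =
          Finset.univ.filter fun v => c k0 v u := by
        ext v
        simp only [Finset.mem_filter, Finset.mem_univ, true_and]
        exact ⟨fun h => csymm _ _ _ h.2, fun h => ⟨(hupdown v u h).2 hu, csymm _ _ _ h⟩⟩
      rw [← Finset.card_filter, e, hdeg2 k0 u]
    rw [Finset.sum_congr rfl fun v hv => h1 v (Finset.mem_filter.1 hv).2, Finset.sum_comm,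
      ← Finset.sum_congr rfl fun u hu => h2 u (Finset.mem_filter.1 hu).2]
  rw [Finset.sum_const, Finset.sum_const, smul_eq_mul, smul_eq_mul] at hcount
  have htot : (Finset.univ.filter (fun v => up v)).card +
      (Finset.univ.filter (fun v => ¬ up v)).card = 2 * d + 1 := by
    rw [← hV, ← Finset.card_univ]
    exact Finset.card_filter_add_card_filter_not _
  omega

end Pool.Agent.Y996.RK
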