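import Pool.Agent.H568R3.Ham

/-!
# The decomposition of the complete graph on `2d + 1` vertices into `d` Hamilton cycles
-/

set_option autoImplicit false

namespace Pool.Agent.Y996.RK

open SimpleGraph

section walk

variable {V : Type*} {G : SimpleGraph V}

/-- The walk along a sequence of vertices. -/
def wk (f : ℕ → V) (hf : ∀ i, G.Adj (f i) (f (i + 1))) : (m : ℕ) → G.Walk (f 0) (f m)
  | 0 => Walk.nil
  | m + 1 => (wk f hf m).concat (hf m)

theorem wk_support (f : ℕ → V) (hf : ∀ i, G.Adj (f i) (f (i + 1))) (m : ℕ) :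
    (wk f hf m).support = (List.range (m + 1)).map f := by
  induction m with
  | zero => simp [wk]
  | succ m ih =>
    rw [wk, Walk.support_concat, ih, List.range_succ (n := m + 1), List.map_append]
    simp

theorem wk_edges (f : ℕ → V) (hf : ∀ i, G.Adj (f i) (f (i + 1))) (m : ℕ) :
    (wk f hf m).edges = (List.range m).map fun i => s(f i, f (i + 1)) := by
  induction m with
  | zero => simp [wk]
  | succ m ih =>
    rw [wk, Walk.edges_concat, ih, List.range_succ, List.map_append, List.concat_eq_append]
    simp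

/-- A Hamilton cycle from a cyclic sequence, with its edges. -/
theorem ham_of_seq [DecidableEq V] {n : ℕ} (h3 : 3 ≤ n) (f : ℕ → V)
    (hf : ∀ i, G.Adj (f i) (f (i + 1))) (hper : f n = f 0)
    (hinj : ∀ i j, i < n → j < n → f i = f j → i = j) (hsurj : ∀ v, ∃ i, i < n ∧ f i = v) :
    ∃ (u : V) (q : G.Walk u u), q.IsHamiltonianCycle ∧
      ∀ e, e ∈ q.edges ↔ ∃ i, i < n ∧ e = s(f i, f (i + 1)) := by
  obtain ⟨m, rfl⟩ : ∃ m, n = m + 1 := ⟨n - 1, by omega⟩
  have hadj : G.Adj (f m) (f 0) := by
    have := hf m
    rwa [hper] at this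
  have hnodup : (wk f hf m).support.Nodup := by
    rw [wk_support]
    refine List.Nodup.map_on ?_ List.nodup_range
    intro i hi j hj hij
    rw [List.mem_range] at hi hj
    exact hinj i j hi hj hij
  refine ⟨f m, Walk.cons hadj (wk f hf m), ?_, ?_⟩
  · have hcyc : (Walk.cons hadj (wk f hf m)).IsCycle := by
      rw [Walk.cons_isCycle_iff]
      refine ⟨Walk.IsPath.mk' hnodup, ?_⟩
      intro he
      rw [wk_edges, List.mem_map] at he
      obtain ⟨i, hi, h⟩ := he
      rw [List.mem_range] at hi
      rw [Sym2.eq_iff] at h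
      rcases h with ⟨h1, _⟩ | ⟨h1, h2⟩
      · have := hinj i m (by omega) (by omega) h1
        omega
      · have := hinj i 0 (by omega) (by omega) h1
        have := hinj (i + 1) m (by omega) (by omega) h2
        omega
    rw [Walk.isHamiltonianCycle_iff_isCycle_and_support_count_tail_eq_one]
    refine ⟨hcyc, ?_⟩
    intro a
    rw [Walk.support_cons, List.tail_cons]
    apply List.count_eq_one_of_mem hnodup
    obtain ⟨i, hi, rfl⟩ := hsurj a
    rw [wk_support]
    exact List.mem_map.2 ⟨i, List.mem_range.2 hi, rfl⟩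
  · intro e
    rw [Walk.edges_cons, List.mem_cons, wk_edges, List.mem_map]
    constructor
    · rintro (he | ⟨i, hi, rfl⟩)
      · refine ⟨m, by omega, ?_⟩
        rw [he, hper]
      · rw [List.mem_range] at hi
        exact ⟨i, by omega, rfl⟩
    · rintro ⟨i, hi, rfl⟩
      by_cases him : i = m
      · left
        rw [him, hper]
      · right
        exact ⟨i, List.mem_range.2 (by omega), rfl⟩

end walk

section walecki

variable {d : ℕ}

theorem cast_inj {x y : ℕ} (hx : x < 2 * d) (hy : y < 2 * d)
    (h : (x : ZMod (2 * d)) = (y : ZMod (2 * d))) : x = y := by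
  rw [ZMod.natCast_eq_natCast_iff'] at h
  rwa [Nat.mod_eq_of_lt hx, Nat.mod_eq_of_lt hy] at h

theorem two_d : (2 : ZMod (2 * d)) * (d : ZMod (2 * d)) = 0 := by
  have := ZMod.natCast_self (2 * d)
  push_cast at this
  exact this

/-- The zigzag `0, 1, -1, 2, -2, …`. -/
def zz (d t : ℕ) : ZMod (2 * d) :=
  if t % 2 = 0 then -((t / 2 : ℕ) : ZMod (2 * d)) else (((t + 1) / 2 : ℕ) : ZMod (2 * d))

theorem zz_even (m : ℕ) : zz d (2 * m) = -(m : ZMod (2 * d)) := by
  unfold zz
  rw [if_pos (by omega), show 2 * m / 2 = m by omega]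

theorem zz_odd (m : ℕ) : zz d (2 * m + 1) = (m : ZMod (2 * d)) + 1 := by
  unfold zz
  rw [if_neg (by omega), show (2 * m + 1 + 1) / 2 = m + 1 by omega]
  push_cast
  rfl

theorem zz_inj {s t : ℕ} (hs : s < 2 * d) (ht : t < 2 * d) (h : zz d s = zz d t) : s = t := by
  have key : ∀ a b : ℕ, a < d → b < d → -(a : ZMod (2 * d)) ≠ (b : ZMod (2 * d)) + 1 := by
    intro a b ha hb hab
    have h1 : ((a + b + 1 : ℕ) : ZMod (2 * d)) = ((0 : ℕ) : ZMod (2 * d)) := by
      push_cast
      linear_combination -hab
    have := cast_inj (by omega) (by omega) h1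
    omega
  obtain ⟨a, rfl | rfl⟩ := Nat.even_or_odd' s <;> obtain ⟨b, rfl | rfl⟩ := Nat.even_or_odd' t
  · rw [zz_even, zz_even, neg_inj] at h
    have := cast_inj (by omega) (by omega) h
    omega
  · rw [zz_even, zz_odd] at h
    exact absurd h (key a b (by omega) (by omega))
  · rw [zz_even, zz_odd] at h
    exact absurd h.symm (key b a (by omega) (by omega))
  · rw [zz_odd, zz_odd, add_left_inj] at h
    have := cast_inj (by omega) (by omega) h
    omega

/-- The Hamilton cycle number `i` as a sequence. -/
def ff (d i t : ℕ) : Option (ZMod (2 * d)) :=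
  if t % (2 * d + 1) = 2 * d then none
  else some ((i : ZMod (2 * d)) + zz d (t % (2 * d + 1)))

theorem ff_last (i : ℕ) : ff d i (2 * d) = none := by
  unfold ff
  rw [if_pos (Nat.mod_eq_of_lt (by omega))]

theorem ff_lt {i t : ℕ} (ht : t < 2 * d) :
    ff d i t = some ((i : ZMod (2 * d)) + zz d t) := by
  unfold ff
  rw [Nat.mod_eq_of_lt (by omega), if_neg (by omega)]

theorem ff_per (i : ℕ) : ff d i (2 * d + 1) = ff d i 0 := by
  unfold ff
  rw [Nat.mod_self, Nat.zero_mod]

theorem ff_inj {i s t : ℕ} (hs : s < 2 * d + 1) (ht : t < 2 * d + 1)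
    (h : ff d i s = ff d i t) : s = t := by
  by_cases h1 : s = 2 * d
  · by_cases h2 : t = 2 * d
    · omega
    · rw [h1, ff_last, ff_lt (by omega)] at h
      exact absurd h (by simp)
  · by_cases h2 : t = 2 * d
    · rw [h2, ff_last, ff_lt (by omega)] at h
      exact absurd h (by simp)
    · rw [ff_lt (by omega), ff_lt (by omega), Option.some_inj, add_right_inj] at h
      exact zz_inj (by omega) (by omega) h

theorem ff_mod (i t : ℕ) : ff d i (t % (2 * d + 1)) = ff d i t := by
  unfold ff
  rw [Nat.mod_mod]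

theorem ff_ne (hd : 1 ≤ d) (i t : ℕ) : ff d i t ≠ ff d i (t + 1) := by
  intro h
  rw [← ff_mod i t, ← ff_mod i (t + 1)] at h
  have h1 := ff_inj (Nat.mod_lt _ (by omega)) (Nat.mod_lt _ (by omega)) h
  have h2 : t % (2 * d + 1) < 2 * d + 1 := Nat.mod_lt _ (by omega)
  rw [Nat.add_mod] at h1
  rw [Nat.mod_eq_of_lt (show 1 < 2 * d + 1 by omega)] at h1
  by_cases h3 : t % (2 * d + 1) + 1 < 2 * d + 1
  · rw [Nat.mod_eq_of_lt h3] at h1
    omega
  · rw [show t % (2 * d + 1) + 1 = 2 * d + 1 by omega, Nat.mod_self] at h1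
    omega

theorem ff_surj (hd : 1 ≤ d) (i : ℕ) (v : Option (ZMod (2 * d))) :
    ∃ t, t < 2 * d + 1 ∧ ff d i t = v := by
  have : NeZero (2 * d) := ⟨by omega⟩
  have hb : Function.Bijective (fun t : Fin (2 * d + 1) => ff d i t.1) := by
    rw [Fintype.bijective_iff_injective_and_card]
    refine ⟨fun s t h => Fin.ext (ff_inj s.2 t.2 h), ?_⟩
    simp [ZMod.card]
  obtain ⟨t, ht⟩ := hb.2 v
  exact ⟨t.1, t.2, ht⟩

/-- The edges of the cycle number `i`. -/
def PE (d i : ℕ) (e : Sym2 (Option (ZMod (2 * d)))) : Prop :=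
  ∃ t, t < 2 * d + 1 ∧ e = s(ff d i t, ff d i (t + 1))

theorem exists_PE (hd : 1 ≤ d) (x y : Option (ZMod (2 * d))) (hxy : x ≠ y) :
    ∃ i, i < d ∧ PE d i s(x, y) := by
  have hnz : NeZero (2 * d) := ⟨by omega⟩
  have hnone : ∀ a : ZMod (2 * d), ∃ i, i < d ∧ PE d i s(none, some a) := by
    intro a
    have ha := ZMod.val_lt a
    by_cases h : a.val < d
    · refine ⟨a.val, h, 2 * d, by omega, ?_⟩
      rw [ff_last, ff_per, ff_lt (by omega), show (0 : ℕ) = 2 * 0 by rfl, zz_even,
        ZMod.natCast_zmod_val]
      simp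
    · refine ⟨a.val - d, by omega, 2 * d - 1, by omega, ?_⟩
      rw [show 2 * d - 1 + 1 = 2 * d by omega, ff_last, ff_lt (by omega),
        show 2 * d - 1 = 2 * (d - 1) + 1 by omega, zz_odd, Sym2.eq_swap]
      congr 2
      rw [Nat.cast_sub (by omega), Nat.cast_sub hd, ZMod.natCast_zmod_val]
      push_cast
      ring_nf
  cases x with
  | none =>
    cases y with
    | none => exact absurd rfl hxy
    | some a => exact hnone a
  | some a =>
    cases y with
    | none =>
      rw [Sym2.eq_swap]
      exact hnone a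
    | some b =>
      have hab : a ≠ b := fun h => hxy (by rw [h])
      have hs := ZMod.val_lt (a + b)
      set i := (a + b).val / 2 with hi
      refine ⟨i, by omega, ?_⟩
      have hsum : a + b = 2 * (i : ZMod (2 * d)) ∨ a + b = 2 * (i : ZMod (2 * d)) + 1 := by
        have h1 : ((a + b).val : ZMod (2 * d)) = a + b := ZMod.natCast_zmod_val _
        rcases Nat.mod_two_eq_zero_or_one (a + b).val with h2 | h2
        · left
          rw [← h1, show (a + b).val = 2 * i by omega]
          push_cast
          rfl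
        · right
          rw [← h1, show (a + b).val = 2 * i + 1 by omega]
          push_cast
          rfl
      rcases hsum with hsum | hsum
      · -- sum `2 i`
        have main : ∀ a b : ZMod (2 * d), a + b = 2 * (i : ZMod (2 * d)) →
            (a - (i : ZMod (2 * d))).val ≠ 0 → (a - (i : ZMod (2 * d))).val < d →
            PE d i s(some a, some b) := by
          intro a b hsum h0 h1
          set m := (a - (i : ZMod (2 * d))).val with hm
          have hm' : (m : ZMod (2 * d)) = a - (i : ZMod (2 * d)) := ZMod.natCast_zmod_val _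
          refine ⟨2 * (m - 1) + 1, by omega, ?_⟩
          rw [ff_lt (by omega), show 2 * (m - 1) + 1 + 1 = 2 * m by omega, ff_lt (by omega),
            zz_odd, zz_even, Nat.cast_sub (by omega), hm']
          congr 2
          · congr 1
            push_cast
            ring
          · congr 1
            linear_combination hsum
        by_cases h0 : (a - (i : ZMod (2 * d))).val = 0
        · exfalso
          rw [ZMod.val_eq_zero] at h0
          apply hab
          linear_combination (2 : ZMod (2 * d)) * h0 - hsum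
        · have hlt := ZMod.val_lt (a - (i : ZMod (2 * d)))
          rcases lt_trichotomy (a - (i : ZMod (2 * d))).val d with h1 | h1 | h1
          · exact main a b hsum h0 h1
          · exfalso
            have h2 : ((a - (i : ZMod (2 * d))).val : ZMod (2 * d)) = a - (i : ZMod (2 * d)) :=
              ZMod.natCast_zmod_val _
            rw [h1] at h2
            apply hab
            linear_combination (-2 : ZMod (2 * d)) * h2 + two_d (d := d) - hsum
          · rw [Sym2.eq_swap]
            have h2 : (b - (i : ZMod (2 * d))).val = 2 * d - (a - (i : ZMod (2 * d))).val := by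
              have h3 : b - (i : ZMod (2 * d)) = -(a - (i : ZMod (2 * d))) := by
                linear_combination hsum
              rw [h3, ZMod.neg_val, if_neg (fun h => h0 (by rw [h, ZMod.val_zero]))]
            apply main b a (by rw [add_comm]; exact hsum)
            · omega
            · omega
      · -- sum `2 i + 1`
        have main : ∀ a b : ZMod (2 * d), a + b = 2 * (i : ZMod (2 * d)) + 1 →
            ∀ m : ℕ, m < d → (m : ZMod (2 * d)) = (i : ZMod (2 * d)) - a →
            PE d i s(some a, some b) := by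
          intro a b hsum m h1 hm'
          refine ⟨2 * m, by omega, ?_⟩
          rw [ff_lt (by omega), ff_lt (by omega), zz_odd, zz_even, hm']
          congr 2
          · congr 1
            ring
          · congr 1
            linear_combination hsum
        have hlt := ZMod.val_lt ((i : ZMod (2 * d)) - a)
        have hval : (((i : ZMod (2 * d)) - a).val : ZMod (2 * d)) = (i : ZMod (2 * d)) - a :=
          ZMod.natCast_zmod_val _
        by_cases h1 : ((i : ZMod (2 * d)) - a).val < d
        · exact main a b hsum _ h1 hval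
        · rw [Sym2.eq_swap]
          apply main b a (by rw [add_comm]; exact hsum) (2 * d - 1 - ((i : ZMod (2 * d)) - a).val)
          · omega
          · rw [Nat.cast_sub (by omega), Nat.cast_sub (by omega), hval]
            push_cast
            linear_combination (two_d (d := d)) + hsum

theorem PE_unique (hd : 1 ≤ d) {i j : ℕ} (hi : i < d) (hj : j < d)
    {e : Sym2 (Option (ZMod (2 * d)))} (h1 : PE d i e) (h2 : PE d j e) : i = j := by
  -- normal form
  have key : ∀ i, i < d → PE d i e → (∃ c : ℕ, (c = i ∨ c = i + d) ∧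
      e = s(none, some (c : ZMod (2 * d)))) ∨ ∃ (a b : ZMod (2 * d)) (c : ℕ),
        (c = 2 * i ∨ c = 2 * i + 1) ∧ a + b = (c : ZMod (2 * d)) ∧ e = s(some a, some b) := by
    rintro i hi ⟨t, ht, rfl⟩
    by_cases h1 : t = 2 * d
    · left
      refine ⟨i, Or.inl rfl, ?_⟩
      rw [h1, ff_last, ff_per, ff_lt (by omega), show (0 : ℕ) = 2 * 0 by rfl, zz_even]
      simp
    · by_cases h2 : t = 2 * d - 1
      · left
        refine ⟨i + d, Or.inr rfl, ?_⟩
        rw [h2, show 2 * d - 1 + 1 = 2 * d by omega, ff_last, ff_lt (by omega),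
          show 2 * d - 1 = 2 * (d - 1) + 1 by omega, zz_odd, Sym2.eq_swap, Nat.cast_sub hd]
        congr 2
        push_cast
        ring_nf
      · right
        rw [ff_lt (by omega), ff_lt (by omega)]
        obtain ⟨m, rfl | rfl⟩ := Nat.even_or_odd' t
        · refine ⟨_, _, 2 * i + 1, Or.inr rfl, ?_, rfl⟩
          rw [zz_even, zz_odd]
          push_cast
          ring
        · refine ⟨_, _, 2 * i, Or.inl rfl, ?_, rfl⟩
          rw [zz_odd, show 2 * m + 1 + 1 = 2 * (m + 1) by omega, zz_even]
          push_cast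
          ring
  rcases key i hi h1 with ⟨c, hc, he⟩ | ⟨a, b, c, hc, hab, he⟩ <;>
    rcases key j hj h2 with ⟨c', hc', he'⟩ | ⟨a', b', c', hc', hab', he'⟩
  · rw [he, Sym2.eq_iff] at he'
    simp only [true_and, Option.some_inj, reduceCtorEq, and_false, or_false] at he'
    have := cast_inj (by omega) (by omega) he'
    omega
  · rw [he, Sym2.eq_iff] at he'
    simp at he'
  · rw [he, Sym2.eq_iff] at he'
    simp at he'
  · have h3 : (c : ZMod (2 * d)) = (c' : ZMod (2 * d)) := by
      rw [← hab, ← hab']
      rw [he, Sym2.eq_iff] at he'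
      simp only [Option.some_inj] at he'
      rcases he' with ⟨h4, h5⟩ | ⟨h4, h5⟩
      · rw [h4, h5]
      · rw [h4, h5, add_comm]
    have := cast_inj (by omega) (by omega) h3
    omega

open Pool.Agent.H568R3

/-- **Walecki.** A complete graph with `2d + 1` vertices is the edge-disjoint union of `d` Hamilton
cycles. -/
theorem walecki {V : Type*} [DecidableEq V] [Fintype V] (hd : 1 ≤ d)
    (hV : Fintype.card V = 2 * d + 1) :
    IsUnionOfHamiltonCycles d (⊤ : SimpleGraph V) := by
  have hnz : NeZero (2 * d) := ⟨by omega⟩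
  obtain ⟨φ⟩ : Nonempty (Option (ZMod (2 * d)) ≃ V) := by
    rw [← Fintype.card_eq, hV]
    simp [ZMod.card]
  have h := fun i : Fin d => ham_of_seq (G := (⊤ : SimpleGraph V)) (n := 2 * d + 1) (by omega)
    (fun t => φ (ff d i t)) (fun t h => ff_ne hd i t (φ.injective h))
    (by simp only [ff_per]) (fun s t hs ht h => ff_inj hs ht (φ.injective h))
    (fun v => by
      obtain ⟨t, ht, h⟩ := ff_surj hd i (φ.symm v)
      exact ⟨t, ht, by simp only [h, Equiv.apply_symm_apply]⟩)
  choose u q hq he using h
  refine ⟨u, q, hq, ?_⟩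
  have hPE : ∀ (i : Fin d) (e : Sym2 (Option (ZMod (2 * d)))),
      e.map φ ∈ (q i).edges ↔ PE d i e := by
    intro i e
    rw [he]
    constructor
    · rintro ⟨t, ht, h⟩
      refine ⟨t, ht, ?_⟩
      apply Sym2.map.injective φ.injective
      rw [h, Sym2.map_mk]
    · rintro ⟨t, ht, rfl⟩
      exact ⟨t, ht, by rw [Sym2.map_mk]⟩
  intro e he'
  induction e with
  | h x y =>
    have hxy : x ≠ y := he'
    have h1 : s(x, y) = (s(φ.symm x, φ.symm y)).map φ := by
      rw [Sym2.map_mk]
      simp
    obtain ⟨i, hi, hp⟩ := exists_PE hd (φ.symm x) (φ.symm y) (fun h => hxy (φ.symm.injective h))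
    refine ⟨⟨i, hi⟩, ?_, ?_⟩
    · show s(x, y) ∈ (q ⟨i, hi⟩).edges
      rw [h1, hPE]
      exact hp
    · intro j hj
      have hj' : s(x, y) ∈ (q j).edges := hj
      rw [h1, hPE] at hj'
      exact Fin.ext (PE_unique hd j.2 hi hj' hp)

end walecki

end Pool.Agent.Y996.RK
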